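import Pool.Agent.Helper11.M3.GoalsA
import Pool.Agent.Helper17.PB.SVB
import Pool.Agent.Helper39.REC.KEXT
import Pool.Agent.Helper11.PP.MOM
import Pool.Agent.Helper42.PP1.LAB

/-!
# Packet M3-A_CAS (MP_fc6b1e_nt): the two cases `J = K`, `J ≠ K`
-/

set_option autoImplicit false

namespace Pool.Agent.Helper85.M3

open NumberField Polynomial Module IsDedekindDomain
open Pool.Agent.Helper51.RP
open Pool.Agent.Helper42.PP (Spl Base)
open Pool.Agent.Helper42.PP1 (SitW)
open Pool.Agent.Helper42.PB (TauF sysB SitB BaseB)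
open Pool.Agent.Helper11.M3

/-- A prime which is split in `K₁` is split in every isomorphic field. -/
theorem spl_up {K K₁ M₂ : Type} [Field K] [NumberField K] [Field K₁] [NumberField K₁] [Field M₂]
    [NumberField M₂] [Algebra K K₁] [Algebra K M₂] [Algebra K₁ M₂] [IsScalarTower K K₁ M₂]
    (hb : Function.Bijective (algebraMap K₁ M₂)) (S : Finset (HeightOneSpectrum (𝓞 K))) :
    Spl K₁ S ⊆ Spl M₂ S := by
  rintro v ⟨hv, W, hW, hf⟩
  obtain ⟨W', hW'⟩ := Pool.Agent.Helper11.PP.exists_above' (E := M₂) W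
  obtain ⟨n, hn, hval⟩ := Pool.Agent.Helper39.REC.val_above hW'
  refine ⟨hv, W', Pool.Agent.Helper11.PP.above_trans hW hW', fun g hg => ?_⟩
  let e : K₁ ≃ₐ[K] M₂ := AlgEquiv.ofBijective (IsScalarTower.toAlgHom K K₁ M₂) hb
  have he : ∀ y : K₁, e y = algebraMap K₁ M₂ y := fun y => rfl
  have h1 := hf ((e.trans g).trans e.symm) (fun y => by
    refine (pow_left_inj₀ zero_le' zero_le' hn).1 ?_
    rw [← hval, ← hval, ← he]
    have h2 : e (((e.trans g).trans e.symm) y) = g (e y) := e.apply_symm_apply _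
    rw [h2, hg, he])
  ext x
  obtain ⟨y, rfl⟩ := e.surjective x
  have h2 : e (((e.trans g).trans e.symm) y) = g (e y) := e.apply_symm_apply _
  rw [← h2, h1]
  rfl

theorem a_cas : A_CAS := by
  intro p hp K M K₁ M₁ J M₂ _ _ _ _ _ _ _ _ _ _ _ _ _ _ _ _ _ _ _ _ _ _ _ _ ε δ P _ a₀ hB hO B D
    n E aτ
  have hs := hB.sit
  have := hs.gK
  have := hs.gMK
  have := hs.st2
  have := hB.t1
  have := hB.t3
  have := hB.gM₂
  have := hB.gJ
  have := hB.t4
  have ht : IsScalarTower K K₁ M₂ := IsScalarTower.of_algebraMap_eq fun x => by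
    rw [IsScalarTower.algebraMap_apply K M₁ M₂, IsScalarTower.algebraMap_apply K K₁ M₁,
      ← IsScalarTower.algebraMap_apply K₁ M₁ M₂]
  have hdv := Pool.Agent.Helper14.RD.finrank_dvd_pred p K K₁ ε hs.prim hs.gen
  obtain ⟨l, hl⟩ := hB.degJ
  by_cases hJ : finrank K J = 1
  · -- the case `J = K`
    have hJs : Function.Surjective (algebraMap K J) :=
      (Algebra.finrank_eq_one_iff_bijective_algebraMap.mp hJ).2
    have hG : IsGalois K₁ M₂ := IsGalois.tower_top_of_isGalois K K₁ M₂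
    have h1 : ∀ g : M₂ ≃ₐ[K₁] M₂, g = 1 := by
      intro g
      have h2 : (g.restrictScalars K : M₂ ≃ₐ[K] M₂) = 1 := by
        refine hB.lin₂ _ (fun x => ?_) (fun x => ?_)
        · have h3 : AlgEquiv.restrictNormal (g.restrictScalars K : M₂ ≃ₐ[K] M₂) M₁ = 1 := by
            refine hO.gen _ ?_
            apply (algebraMap M₁ M₂).injective
            rw [AlgEquiv.restrictNormal_commutes, ← IsScalarTower.algebraMap_apply K₁ M₁ M₂]
            exact g.commutes ε
          rw [← AlgEquiv.restrictNormal_commutes, h3]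
          rfl
        · obtain ⟨y, rfl⟩ := hJs x
          rw [← IsScalarTower.algebraMap_apply K J M₂]
          exact (g.restrictScalars K : M₂ ≃ₐ[K] M₂).commutes y
      ext x
      exact DFunLike.congr_fun h2 x
    have h2 : finrank K₁ M₂ = 1 := by
      rw [← IsGalois.card_aut_eq_finrank K₁ M₂]
      exact Nat.card_eq_one_iff_unique.2 ⟨⟨fun a b => by rw [h1 a, h1 b]⟩, ⟨1⟩⟩
    have hb := Algebra.finrank_eq_one_iff_bijective_algebraMap.mp h2
    have hsub := spl_up (K := K) hb B.S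
    have hspl : ∀ q, NV B J M₂ q ∧ (sysB B E (Spl M₂ B.S) D.s0 aτ).spl q := fun q =>
      ⟨Or.inl hJ, hsub q.2⟩
    refine ⟨Or.inl hspl, ?_⟩
    obtain ⟨K₀, hK₀⟩ := Pool.Agent.Helper17.PB.sv0B p K M K₁ M₁ M₂ ε δ P B E hdv D.s0 aτ 0
    refine ⟨K₀, fun K' hK' m n' hm hmn => ((hK₀ K' hK').mers m n' hm hmn).trans (le_of_eq ?_)⟩
    refine Finset.sum_congr ?_ fun q _ => rfl
    ext q
    simp only [Finset.mem_filter]
    exact ⟨fun h => ⟨h.1, (hspl q).1, h.2.2⟩, fun h => ⟨h.1, (hspl q).2, h.2.2⟩⟩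
  · -- the case `J ≠ K`
    have hNV : ∀ q, NV B J M₂ q ↔ ¬ (sysB B E (Spl M₂ B.S) D.s0 aτ).spl q := fun q =>
      ⟨fun h => h.resolve_left hJ, Or.inr⟩
    refine ⟨Or.inr ⟨fun q hq => (hNV q).1 hq, ?_⟩, ?_⟩
    · unfold YG
      rw [if_neg (fun h => hJ h.1)]
    have hl0 : l ≠ 0 := by
      rintro rfl
      exact hJ (by rw [hl, pow_zero])
    have hlt : 1 < finrank K₁ M₂ := by
      have hpos : 0 < finrank K₁ M₂ := finrank_pos
      by_contra hcon
      have h1 : finrank K₁ M₂ = 1 := by omega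
      have h2 : finrank K M₂ = finrank K K₁ := by
        rw [← finrank_mul_finrank K K₁ M₂, h1, mul_one]
      have h3 : finrank K J ∣ finrank K K₁ := by
        rw [← h2, ← finrank_mul_finrank K J M₂]
        exact dvd_mul_right _ _
      have h4 : p ∣ finrank K K₁ := (dvd_pow_self p hl0).trans (hl ▸ h3)
      exact (Nat.Prime.coprime_iff_not_dvd hp.out).1
        (Pool.Agent.Helper42.PP1.copK hs).symm h4
    obtain ⟨K₀, hK₀⟩ := Pool.Agent.Helper17.PB.mernB p K M K₁ M₁ M₂ ε δ P B E hlt D.s0 aτ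
    refine ⟨K₀, fun K' hK' m n' hm hmn => (hK₀ K' hK' m n' hm hmn).trans (le_of_eq ?_)⟩
    refine Finset.sum_congr ?_ fun q _ => rfl
    ext q
    simp only [Finset.mem_filter]
    exact ⟨fun h => ⟨h.1, (hNV q).2 h.2.1, h.2.2⟩, fun h => ⟨h.1, (hNV q).1 h.2.1, h.2.2⟩⟩

end Pool.Agent.Helper85.M3
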